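import Pool.Agent.Helper79L.BD.Cl

set_option autoImplicit false
set_option linter.dupNamespace false

open Set Topology Cardinal
open Pool.Agent.Helper535

namespace Pool.Agent.Helper79L.BD

universe u

theorem bd_corson (kap : Cardinal.{u}) : ∀ (X : Type u) [TopologicalSpace X] [CompactSpace X]
    [T2Space X] (K : Type u) (d : K → X) (e : K → C(X, ℝ)) (T : Finset K → Set K),
    CTight X → BD d e T → #K = kap → CorsonOn (univ : Set X) := by
  classical
  induction kap using WellFoundedLT.induction with
  | ind kap ih =>
    intro X _ _ _ K d e T hct h hK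
    have huniv : closure (d '' (Set.univ : Set K)) = Set.univ := by
      rw [image_univ]
      exact h.dense.closure_range
    have hsepu : SepOn Set.univ (e '' (Set.univ : Set K)) := by
      have := h.sep Set.univ (fun t _ => subset_univ _)
      rwa [huniv] at this
    rcases le_or_gt kap ℵ₀ with hk | hk
    · have : Countable K := Cardinal.mk_le_aleph0_iff.1 (hK.le.trans hk)
      refine ⟨e '' (Set.univ : Set K), fun x _ => ?_, hsepu⟩
      exact ((countable_univ (α := K)).image e).mono fun f hf => hf.1
    · let W := kap.ord.ToType
      have hW : #W = kap := Cardinal.mk_ord_toType _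
      have hIio : ∀ i : W, #(Iio i) < kap := fun i =>
        (Cardinal.mk_Iio_lt i (by simp [W])).trans_eq hW
      have hno : NoMaxOrder W := Cardinal.noMaxOrder hk.le
      obtain ⟨ε⟩ : Nonempty (W ≃ K) := by rw [← Cardinal.eq, hW, hK]
      have hneK : Nonempty K := by
        rw [← Cardinal.mk_ne_zero_iff, hK]
        exact (Cardinal.aleph0_pos.trans hk).ne'
      obtain ⟨k0⟩ := hneK
      let G : W → Set K := fun i => insert k0 (ε '' Iio i)
      have hGm : Monotone G := fun i j hij =>
        insert_subset_insert (image_mono (Iio_subset_Iio hij))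
      let S : W → Set K := fun i => cl T (G i)
      have hSc : ∀ i, Cls T (S i) := fun i => cls_cl T _
      have hSne : ∀ i, (S i).Nonempty := fun i => ⟨k0, subset_cl T _ (mem_insert _ _)⟩
      have hSm : Monotone S := fun i j hij => cl_mono T (hGm hij)
      have hScard : ∀ i, #(S i) < kap := by
        intro i
        refine (cl_card T h.ctb _).trans_lt (max_lt ?_ hk)
        refine (Cardinal.mk_insert_le).trans_lt ?_
        exact Cardinal.add_lt_of_lt hk.le (Cardinal.mk_image_le.trans_lt (hIio i))
          (Cardinal.one_lt_aleph0.trans hk)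
      have hlim : ∀ i : W, Order.IsSuccLimit i → ∀ k ∈ S i, ∃ j < i, k ∈ S j := by
        intro i hi k hk'
        obtain ⟨t, ht, hkt⟩ := cl_fin T _ k hk'
        have hnx : ∀ w < i, ∃ w', w < w' ∧ w' < i := by
          intro w hw
          by_contra hn
          push Not at hn
          exact hi.2 w ⟨hw, fun c hc hci => absurd hci (not_lt.2 (hn c hc))⟩
        have h0 : ∃ j, j < i := by
          by_contra hn
          push Not at hn
          exact hi.1 (fun b _ => hn b)
        have key : ∀ u : Finset K, (↑u : Set K) ⊆ G i → ∃ j < i, (↑u : Set K) ⊆ G j := by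
          intro u
          induction u using Finset.induction_on with
          | empty =>
            intro _
            obtain ⟨j, hj⟩ := h0
            exact ⟨j, hj, by simp⟩
          | insert a u _ ihu =>
            intro hu
            obtain ⟨j, hj, hju⟩ := ihu (fun x hx => hu (by simp [Finset.mem_coe.1 hx]))
            have ha : a ∈ G i := hu (by simp)
            rcases ha with rfl | ⟨w, hw, rfl⟩
            · refine ⟨j, hj, ?_⟩
              intro x hx
              rcases Finset.mem_insert.1 (Finset.mem_coe.1 hx) with rfl | hx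
              · exact mem_insert _ _
              · exact hju hx
            · obtain ⟨w', hw', hw'i⟩ := hnx w hw
              refine ⟨max j w', max_lt hj hw'i, ?_⟩
              intro x hx
              rcases Finset.mem_insert.1 (Finset.mem_coe.1 hx) with rfl | hx
              · exact Or.inr ⟨w, hw'.trans_le (le_max_right _ _), rfl⟩
              · exact hGm (le_max_left _ _) (hju hx)
        obtain ⟨j, hj, hjt⟩ := key t ht
        exact ⟨j, hj, cl_mono T hjt hkt⟩
      have hall : ∀ k : K, ∃ i, k ∈ S i := by
        intro k
        obtain ⟨w, rfl⟩ := ε.surjective k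
        obtain ⟨i, hi⟩ := exists_gt w
        exact ⟨i, subset_cl T _ (Or.inr ⟨w, hi, rfl⟩)⟩
      refine chain_lemma hct (fun i => d '' S i) (fun i => e '' S i)
        (fun i j hij => image_mono (hSm hij)) (fun i j hij => image_mono (hSm hij))
        (fun i => ⟨h.twin _ (hSc i) (hSne i), h.sep _ (hSc i)⟩) ?_ ?_ ?_ ?_ ?_
      · rintro i hi _ ⟨k, hk', rfl⟩
        obtain ⟨j, hj, hkj⟩ := hlim i hi k hk'
        exact ⟨j, hj, k, hkj, rfl⟩
      · rintro i hi _ ⟨k, hk', rfl⟩
        obtain ⟨j, hj, hkj⟩ := hlim i hi k hk'
        exact ⟨j, hj, k, hkj, rfl⟩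
      · refine h.dense.mono ?_
        rintro _ ⟨k, rfl⟩
        obtain ⟨i, hi⟩ := hall k
        exact mem_iUnion.2 ⟨i, k, hi, rfl⟩
      · intro x hx y hy hxy
        refine hsepu x hx y hy ?_
        rintro _ ⟨k, -, rfl⟩
        obtain ⟨i, hi⟩ := hall k
        exact hxy _ (mem_iUnion.2 ⟨i, k, hi, rfl⟩)
      · intro i
        apply CorsonOn.of_subtype isClosed_closure
        have : CompactSpace ↥(closure (d '' S i)) :=
          isCompact_iff_compactSpace.1 isClosed_closure.isCompact
        exact ih _ (hScard i) _ _ _ _ _ (ctight_restrict hct _) (h.restrict (S i) (hSc i)) rfl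

end Pool.Agent.Helper79L.BD
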