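import Pool.Agent.Helper535.I

set_option autoImplicit false

open Set Topology Cardinal
open Pool.Agent.Helper535

namespace Pool.Agent.Helper79L.BD

universe u

section cls
variable {K : Type u}

/-- `S` is closed under `T` -/
def Cls (T : Finset K → Set K) (S : Set K) : Prop := ∀ t : Finset K, (↑t : Set K) ⊆ S → T t ⊆ S

/-- the closure under `T` -/
def cl (T : Finset K → Set K) (S : Set K) : Set K := ⋂₀ {S' | S ⊆ S' ∧ Cls T S'}

variable (T : Finset K → Set K)

theorem subset_cl (S : Set K) : S ⊆ cl T S := subset_sInter fun _ h => h.1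

theorem cls_cl (S : Set K) : Cls T (cl T S) := by
  intro t ht x hx
  rw [cl, mem_sInter]
  intro S' hS'
  exact hS'.2 t (fun k hk => (mem_sInter.1 (ht hk)) S' hS') hx

theorem cl_min {S S' : Set K} (h : S ⊆ S') (h' : Cls T S') : cl T S ⊆ S' :=
  sInter_subset_of_mem ⟨h, h'⟩

theorem cl_mono {S S' : Set K} (h : S ⊆ S') : cl T S ⊆ cl T S' :=
  cl_min T (h.trans (subset_cl T S')) (cls_cl T S')

theorem cl_fin (S : Set K) : ∀ x ∈ cl T S, ∃ t : Finset K, (↑t : Set K) ⊆ S ∧ x ∈ cl T ↑t := by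
  classical
  have h : cl T S ⊆ {x | ∃ t : Finset K, (↑t : Set K) ⊆ S ∧ x ∈ cl T ↑t} := by
    apply cl_min
    · intro x hx
      exact ⟨{x}, by simpa using hx, subset_cl T _ (by simp)⟩
    · intro u hu x hx
      have hu' : ∀ k, ∃ t : Finset K, k ∈ u → (↑t : Set K) ⊆ S ∧ k ∈ cl T ↑t := by
        intro k
        by_cases hk : k ∈ u
        · obtain ⟨t, ht⟩ := hu (Finset.mem_coe.2 hk)
          exact ⟨t, fun _ => ht⟩
        · exact ⟨∅, fun h => absurd h hk⟩
      choose t ht using hu'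
      refine ⟨u.biUnion t, ?_, ?_⟩
      · intro k hk
        obtain ⟨a, ha, hk⟩ := Finset.mem_biUnion.1 (Finset.mem_coe.1 hk)
        exact (ht a ha).1 hk
      · refine cls_cl T _ u (fun a ha => cl_mono T ?_ (ht a ha).2) hx
        intro k hk
        exact Finset.mem_coe.2 (Finset.mem_biUnion.2 ⟨a, ha, hk⟩)
  exact h

theorem cl_countable (hT : ∀ t, (T t).Countable) {S : Set K} (hS : S.Countable) :
    (cl T S).Countable := by
  classical
  let U : ℕ → Set K := fun n => Nat.rec S (fun _ A => A ∪ ⋃ t ∈ {t : Finset K | (↑t : Set K) ⊆ A}, T t) n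
  have hU : ∀ n, U (n + 1) = U n ∪ ⋃ t ∈ {t : Finset K | (↑t : Set K) ⊆ U n}, T t := fun n => rfl
  have hUc : ∀ n, (U n).Countable := by
    intro n
    induction n with
    | zero => exact hS
    | succ n ih =>
      rw [hU]
      refine ih.union (Countable.biUnion ?_ fun t _ => hT t)
      refine ((Set.countable_setOf_finite_subset ih).preimage Finset.coe_injective).mono ?_
      intro t ht
      exact ⟨t.finite_toSet, ht⟩
  have hUm : Monotone U := monotone_nat_of_le_succ fun n => by rw [hU]; exact subset_union_left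
  refine (countable_iUnion hUc).mono (cl_min T (subset_iUnion U 0) ?_)
  intro t ht
  obtain ⟨n, hn⟩ := (hUm.directed_le).exists_mem_subset_of_finset_subset_biUnion ht
  refine Subset.trans ?_ (subset_iUnion U (n + 1))
  rw [hU]
  exact subset_union_of_subset_right (subset_biUnion_of_mem (u := fun t => T t) (show t ∈ {t : Finset K | (↑t : Set K) ⊆ U n} from hn)) _

theorem cl_card (hT : ∀ t, (T t).Countable) (S : Set K) : #(cl T S) ≤ max #S ℵ₀ := by
  classical
  have h1 : cl T S ⊆ ⋃ t : Finset S, cl T (Subtype.val '' (↑t : Set S)) := by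
    intro x hx
    obtain ⟨t, ht, hxt⟩ := cl_fin T S x hx
    refine mem_iUnion.2 ⟨t.subtype (· ∈ S), cl_mono T ?_ hxt⟩
    intro k hk
    exact ⟨⟨k, ht hk⟩, by simpa using hk, rfl⟩
  refine (Cardinal.mk_le_mk_of_subset h1).trans ((Cardinal.mk_iUnion_le _).trans ?_)
  calc _ ≤ max #S ℵ₀ * max #S ℵ₀ := by
        apply mul_le_mul' (mk_finset_le _)
        apply ciSup_le'
        intro t
        have := cl_countable T hT (S := Subtype.val '' (↑t : Set S)) (t.finite_toSet.image _).countable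
        exact (Cardinal.le_aleph0_iff_set_countable.2 this).trans (le_max_right _ _)
    _ = max #S ℵ₀ := Cardinal.mul_eq_self (le_max_right _ _)

end cls

/-- countable tightness passes to closed subspaces -/
theorem ctight_restrict {X : Type u} [TopologicalSpace X] (h : CTight X) (Z : Set X) :
    CTight Z := by
  intro B x hx
  rw [closure_subtype] at hx
  obtain ⟨C, hC, hCc, hxC⟩ := h _ _ hx
  refine ⟨Subtype.val ⁻¹' C, ?_, hCc.preimage Subtype.val_injective, ?_⟩
  · intro y hy
    obtain ⟨z, hz, hzy⟩ := hC hy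
    rwa [Subtype.ext hzy] at hz
  · rw [closure_subtype]
    refine closure_mono ?_ hxC
    intro c hc
    obtain ⟨z, hz, rfl⟩ := hC hc
    exact ⟨z, hc, rfl⟩

/-- data for the elementary-submodel characterization of Corson compacta -/
structure BD {X : Type u} [TopologicalSpace X] {K : Type u} (d : K → X) (e : K → C(X, ℝ))
    (T : Finset K → Set K) : Prop where
  ctb : ∀ t, (T t).Countable
  dense : DenseRange d
  sep : ∀ S, Cls T S → SepOn (closure (d '' S)) (e '' S)
  twin : ∀ S, Cls T S → S.Nonempty → Dn univ (d '' S) (e '' S)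

/-- restriction of the data -/
theorem BD.restrict {X : Type u} [TopologicalSpace X] {K : Type u} {d : K → X}
    {e : K → C(X, ℝ)} {T : Finset K → Set K} (h : BD d e T) (S : Set K) (hS : Cls T S) :
    BD (X := ↥(closure (d '' S))) (K := S)
      (fun k => ⟨d k, subset_closure ⟨k, k.2, rfl⟩⟩) (fun k => (e k).restrict (closure (d '' S)))
      (fun t => Subtype.val ⁻¹' (T (t.map ⟨Subtype.val, Subtype.val_injective⟩))) := by
  have hcls : ∀ S' : Set S, Cls (fun t : Finset S => (Subtype.val ⁻¹'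
      (T (t.map ⟨Subtype.val, Subtype.val_injective⟩)) : Set S)) S' →
      Cls T (Subtype.val '' S') := by
    classical
    intro S' hS' t ht k hk
    have htS : (↑t : Set K) ⊆ S := fun a ha => by
      obtain ⟨b, -, rfl⟩ := ht ha
      exact b.2
    have hkS : k ∈ S := hS t htS hk
    have h1 : (t.subtype (· ∈ S)).map ⟨Subtype.val, Subtype.val_injective⟩ = t := by
      ext a
      simp only [Finset.mem_map, Finset.mem_subtype, Function.Embedding.coeFn_mk,
        Subtype.exists, exists_and_left, exists_prop, exists_eq_right_right]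
      exact ⟨fun h => h.1, fun h => ⟨h, htS h⟩⟩
    refine ⟨⟨k, hkS⟩, hS' (t.subtype (· ∈ S)) ?_ ?_, rfl⟩
    · intro a ha
      have : a.1 ∈ t := by simpa using ha
      obtain ⟨b, hb, hba⟩ := ht (Finset.mem_coe.2 this)
      rwa [Subtype.ext hba] at hb
    · show k ∈ T _
      rw [h1]
      exact hk
  refine ⟨fun t => (h.ctb _).preimage Subtype.val_injective, ?_, ?_, ?_⟩
  · intro z
    rw [closure_subtype]
    refine closure_mono ?_ z.2
    rintro _ ⟨k, hk, rfl⟩
    exact ⟨⟨d k, subset_closure ⟨k, hk, rfl⟩⟩, ⟨⟨k, hk⟩, rfl⟩, rfl⟩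
  · intro S' hS' x hx y hy hxy
    rw [closure_subtype] at hx hy
    refine Subtype.ext (h.sep _ (hcls S' hS') x ?_ y ?_ ?_)
    · refine closure_mono ?_ hx
      rintro _ ⟨_, ⟨k, hk, rfl⟩, rfl⟩
      exact ⟨k, ⟨k, hk, rfl⟩, rfl⟩
    · refine closure_mono ?_ hy
      rintro _ ⟨_, ⟨k, hk, rfl⟩, rfl⟩
      exact ⟨k, ⟨k, hk, rfl⟩, rfl⟩
    · rintro _ ⟨_, ⟨k, hk, rfl⟩, rfl⟩
      exact hxy _ ⟨k, hk, rfl⟩
  · intro S' hS' hne z _
    obtain ⟨x', hx', hf⟩ := h.twin _ (hcls S' hS') (hne.image _) z.1 (mem_univ _)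
    have hsub : d '' (Subtype.val '' S') ⊆ d '' S := by
      rintro _ ⟨_, ⟨k, -, rfl⟩, rfl⟩
      exact ⟨k, k.2, rfl⟩
    refine ⟨⟨x', closure_mono hsub hx'⟩, ?_, ?_⟩
    · rw [closure_subtype]
      refine closure_mono ?_ hx'
      rintro _ ⟨_, ⟨k, hk, rfl⟩, rfl⟩
      exact ⟨⟨d k, subset_closure ⟨k, k.2, rfl⟩⟩, ⟨k, hk, rfl⟩, rfl⟩
    · rintro _ ⟨k, hk, rfl⟩
      exact hf _ ⟨k, ⟨k, hk, rfl⟩, rfl⟩

end Pool.Agent.Helper79L.BD
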