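import Pool.Agent.Helper535.K

set_option autoImplicit false
set_option linter.dupNamespace false

open Set Topology Cardinal
open Pool.Agent.Helper535

namespace Pool.Agent.Helper79L.BD

universe u v

theorem exists_rec {I : Type u} {Y : Type v} [LinearOrder I] [WellFoundedLT I]
    (P : (i : I) → ((j : I) → j < i → Y) → Y → Prop) (h : ∀ i f, ∃ y, P i f y) :
    ∃ F : I → Y, ∀ i, P i (fun j _ => F j) (F i) := by
  choose g hg using h
  let F : I → Y := WellFounded.fix (wellFounded_lt (α := I)) (fun i ih => g i ih)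
  refine ⟨F, fun i => ?_⟩
  have : F i = g i (fun j _ => F j) := WellFounded.fix_eq _ _ _
  rw [this]
  exact hg _ _

variable {X : Type u} [TopologicalSpace X]

/-- a point in the intersection of countably many neighbourhoods -/
theorem meet_countable [CompactSpace X] [T2Space X] {A : Set X}
    (hA : ∀ D ⊆ A, D.Countable → closure D ⊆ A) {p : X} (hp : p ∈ closure A) (V : ℕ → Set X)
    (hV : ∀ n, V n ∈ 𝓝 p) : ∃ a ∈ A, ∀ n, a ∈ V n := by
  have h1 : ∀ n, ∃ t ∈ 𝓝 p, IsClosed t ∧ t ⊆ V n := fun n =>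
    exists_mem_nhds_isClosed_subset (hV n)
  choose t ht1 ht2 ht3 using h1
  let s : ℕ → Set X := fun n => ⋂ m ∈ Iic n, t m
  have hs1 : ∀ n, s n ∈ 𝓝 p := fun n => (Filter.biInter_mem (finite_Iic n)).2 fun m _ => ht1 m
  have hs2 : ∀ n, IsClosed (s n) := fun n => isClosed_biInter fun m _ => ht2 m
  have hsm : ∀ m n, m ≤ n → s n ⊆ s m := fun m n hmn =>
    biInter_subset_biInter_left (Iic_subset_Iic.2 hmn)
  have h2 : ∀ n, ∃ a, a ∈ s n ∧ a ∈ A := fun n => mem_closure_iff_nhds.1 hp _ (hs1 n)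
  choose a ha1 ha2 using h2
  have hne : (⋂ n, closure (a '' Ici n)).Nonempty := by
    apply IsCompact.nonempty_iInter_of_sequence_nonempty_isCompact_isClosed
    · intro n
      exact closure_mono (image_mono (Ici_subset_Ici.2 (Nat.le_succ n)))
    · intro n
      exact ⟨a n, subset_closure ⟨n, self_mem_Ici, rfl⟩⟩
    · exact isClosed_closure.isCompact
    · intro n
      exact isClosed_closure
  obtain ⟨q, hq⟩ := hne
  rw [mem_iInter] at hq
  refine ⟨q, ?_, fun n => ?_⟩
  · refine hA (a '' Ici 0) ?_ ((to_countable (Ici 0)).image a) (hq 0)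
    rintro _ ⟨m, -, rfl⟩
    exact ha2 m
  · apply ht3 n
    have h3 : closure (a '' Ici n) ⊆ s n := by
      refine closure_minimal ?_ (hs2 n)
      rintro _ ⟨m, hm, rfl⟩
      exact hsm n m hm (ha1 m)
    exact mem_iInter₂.1 (h3 (hq n)) n self_mem_Iic

theorem ctight_of_small [CompactSpace X] [T2Space X]
    (h : ∀ B : Set X, #B ≤ ℵ₁ → CorsonOn (closure B)) : CTight X := by
  classical
  intro B p hp
  by_contra hcon
  let A : Set X := {y | ∃ C ⊆ B, C.Countable ∧ y ∈ closure C}
  have hBA : B ⊆ A := fun b hb =>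
    ⟨{b}, singleton_subset_iff.2 hb, countable_singleton b, subset_closure rfl⟩
  have hpA : p ∉ A := hcon
  have hpc : p ∈ closure A := closure_mono hBA hp
  have hA : ∀ D ⊆ A, D.Countable → closure D ⊆ A := by
    intro D hD hDc q hq
    have h1 : ∀ y : D, ∃ C ⊆ B, C.Countable ∧ y.1 ∈ closure C := fun y => hD y.2
    choose C hC1 hC2 hC3 using h1
    have : Countable D := hDc.to_subtype
    refine ⟨⋃ y, C y, iUnion_subset hC1, countable_iUnion hC2, ?_⟩
    refine closure_minimal ?_ isClosed_closure hq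
    intro y hy
    exact closure_mono (subset_iUnion C ⟨y, hy⟩) (hC3 ⟨y, hy⟩)
  let I := (ℵ₁ : Cardinal.{u}).ord.ToType
  have hIcard : #I = ℵ₁ := Cardinal.mk_ord_toType _
  have hIcof : Order.cof I = ℵ₁ := by
    rw [Ordinal.cof_toType, Cardinal.isRegular_aleph_one.cof_ord]
  have hunc : ℵ₀ < Order.cof I := by rw [hIcof]; exact Cardinal.aleph0_lt_aleph_one
  have hIio : ∀ i : I, (Iio i).Countable := by
    intro i
    rw [← Cardinal.le_aleph0_iff_set_countable]
    have h1 : #(Iio i) < ℵ₁ := (Cardinal.mk_Iio_lt i (by simp [I])).trans_eq hIcard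
    have h2 : #(Iio i) < Order.succ ℵ₀ := h1.trans_eq Cardinal.succ_aleph0.symm
    exact Order.lt_succ_iff.1 h2
  let P : (i : I) → ((j : I) → j < i → X × Set X) → X × Set X → Prop := fun i f y =>
    (∀ j (hj : j < i), (f j hj).1 ∈ A ∧ (f j hj).2 ∈ 𝓝 p) →
      (y.1 ∈ A ∧ y.2 ∈ 𝓝 p ∧ IsClosed y.2 ∧ y.1 ∈ y.2 ∧
        (∀ j (hj : j < i), y.1 ∈ (f j hj).2) ∧
        Disjoint y.2 (closure {x | ∃ j, ∃ hj : j < i, (f j hj).1 = x}))
  have hP : ∀ i f, ∃ y, P i f y := by
    intro i f
    by_cases hf : ∀ j (hj : j < i), (f j hj).1 ∈ A ∧ (f j hj).2 ∈ 𝓝 p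
    · let D : Set X := {x | ∃ j, ∃ hj : j < i, (f j hj).1 = x}
      have : Countable (Iio i) := (hIio i).to_subtype
      have hDc : D.Countable := by
        refine (countable_range (fun j : Iio i => (f j.1 j.2).1)).mono ?_
        rintro x ⟨j, hj, rfl⟩
        exact ⟨⟨j, hj⟩, rfl⟩
      have hDA : D ⊆ A := by
        rintro x ⟨j, hj, rfl⟩
        exact (hf j hj).1
      have hpD : p ∉ closure D := fun hpD => hpA (hA D hDA hDc hpD)
      obtain ⟨V, hV1, hV2, hV3⟩ := exists_mem_nhds_isClosed_subset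
        (isClosed_closure.isOpen_compl.mem_nhds hpD)
      -- enumerate the neighbourhoods
      obtain ⟨en, hen⟩ : ∃ en : ℕ → Set X, (∀ n, en n ∈ 𝓝 p) ∧
          ∀ j (hj : j < i), ∃ n, en n = (f j hj).2 := by
        rcases isEmpty_or_nonempty (Iio i) with he | he
        · exact ⟨fun _ => Set.univ, fun _ => Filter.univ_mem, fun j hj => he.elim ⟨j, hj⟩⟩
        · obtain ⟨g, hg⟩ := exists_surjective_nat (Iio i)
          refine ⟨fun n => (f (g n).1 (g n).2).2, fun n => (hf _ _).2, fun j hj => ?_⟩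
          obtain ⟨n, hn⟩ := hg ⟨j, hj⟩
          refine ⟨n, ?_⟩
          show (f (g n).1 (g n).2).2 = _
          rw [hn]
      obtain ⟨a, haA, ha⟩ := meet_countable hA hpc (fun n => Nat.casesOn n V en) (by
        intro n
        cases n with
        | zero => exact hV1
        | succ n => exact hen.1 n)
      refine ⟨(a, V), fun _ => ⟨haA, hV1, hV2, ha 0, fun j hj => ?_, ?_⟩⟩
      · obtain ⟨n, hn⟩ := hen.2 j hj
        rw [← hn]
        exact ha (n + 1)
      · exact disjoint_left.2 fun x hx hx' => hV3 hx hx'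
    · exact ⟨(p, ∅), fun h => absurd h hf⟩
  obtain ⟨F, hF⟩ := exists_rec P hP
  have hinv : ∀ i, (F i).1 ∈ A ∧ (F i).2 ∈ 𝓝 p := by
    intro i
    induction i using WellFoundedLT.induction with
    | ind i ih =>
      have := hF i (fun j hj => ih j hj)
      exact ⟨this.1, this.2.1⟩
  have hF' := fun i => hF i (fun j _ => hinv j)
  -- the closure of the free sequence
  let x : I → X := fun i => (F i).1
  have hE : CorsonOn (closure (range x)) := h _ (Cardinal.mk_range_le.trans hIcard.le)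
  have hcomp : CompactSpace ↥(closure (range x)) :=
    isCompact_iff_compactSpace.1 isClosed_closure.isCompact
  have hct : CTight ↥(closure (range x)) := hE.restrict.splits.ctight
  have hneI : Nonempty I := by
    rw [← Cardinal.mk_ne_zero_iff, hIcard]
    exact (Cardinal.aleph_pos 1).ne'
  have hq : (⋂ i, closure (x '' Ici i)).Nonempty := by
    apply IsCompact.nonempty_iInter_of_directed_nonempty_isCompact_isClosed
    · intro i j
      exact ⟨max i j, closure_mono (image_mono (Ici_subset_Ici.2 (le_max_left _ _))),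
        closure_mono (image_mono (Ici_subset_Ici.2 (le_max_right _ _)))⟩
    · intro i
      exact ⟨x i, subset_closure ⟨i, self_mem_Ici, rfl⟩⟩
    · intro i
      exact isClosed_closure.isCompact
    · intro i
      exact isClosed_closure
  obtain ⟨q, hq⟩ := hq
  rw [mem_iInter] at hq
  have hqE : q ∈ closure (range x) := closure_mono (image_subset_range _ _) (hq hneI.some)
  obtain ⟨C, hC, hCc, hqC⟩ := hct {y | y.1 ∈ range x} ⟨q, hqE⟩ (by
    rw [closure_subtype]
    refine closure_mono ?_ hqE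
    intro y hy
    exact ⟨⟨y, subset_closure hy⟩, hy, rfl⟩)
  have hidx : ∀ c : C, ∃ i, x i = c.1.1 := fun c => hC c.2
  choose idx hidx using hidx
  have : Countable C := hCc.to_subtype
  obtain ⟨b, hb⟩ := bdd_of_countable hunc (countable_range idx)
  have h1 : q ∈ closure {y | ∃ j, ∃ _ : j < b, (F j).1 = y} := by
    rw [closure_subtype] at hqC
    refine closure_mono ?_ hqC
    rintro _ ⟨c, hc, rfl⟩
    exact ⟨idx ⟨c, hc⟩, hb _ ⟨_, rfl⟩, hidx ⟨c, hc⟩⟩
  have h2 : q ∈ (F b).2 := by
    refine closure_minimal ?_ (hF' b).2.2.1 (hq b)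
    rintro _ ⟨k, hk, rfl⟩
    rcases (show b ≤ k from hk).eq_or_lt with rfl | hk
    · exact (hF' b).2.2.2.1
    · exact (hF' k).2.2.2.2.1 b hk
  exact disjoint_left.1 (hF' b).2.2.2.2.2 h2 h1

end Pool.Agent.Helper79L.BD
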