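import Pool.Agent.Helper79L.BD.Band
import Pool.Agent.Helper79L.BD.Tight

set_option autoImplicit false
set_option linter.dupNamespace false

open Set Topology Cardinal
open Pool.Agent.Helper535

namespace Pool.Agent.Helper79L.BD

/-- the countable members of `𝓢` contained in `I` form a stationary subset of `[I]^ω` -/
def StatIn {K : Type} (𝓢 : Set (Set K)) (I : Set K) : Prop :=
  ∀ T : Finset K → Set K, (∀ t, (T t).Countable) → (∀ t : Finset K, (↑t : Set K) ⊆ I → T t ⊆ I) →
    ∃ a ∈ 𝓢, a.Countable ∧ a ⊆ I ∧ ∀ t : Finset K, (↑t : Set K) ⊆ a → T t ⊆ a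

/-- stationary sets of countable sets reflect to sets of size at most `𝔠` closed under a given
operation on countable sets -/
def Refl : Prop :=
  ∀ (K : Type) (𝓢 : Set (Set K)), StatIn 𝓢 Set.univ →
    ∀ Φ : Set K → Set K, (∀ C, C.Countable → (Φ C).Countable) →
      ∃ I : Set K, #I ≤ 𝔠 ∧ (∀ C ⊆ I, C.Countable → Φ C ⊆ I) ∧ StatIn 𝓢 I

theorem refl_corson (hR : Refl) (X : Type) [TopologicalSpace X] [CompactSpace X] [T2Space X]
    (h : ∀ B : Set X, #B ≤ 𝔠 → CorsonOn (closure B)) : CorsonOn (Set.univ : Set X) := by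
  classical
  rcases isEmpty_or_nonempty X with hX | ⟨⟨x0⟩⟩
  · exact ⟨∅, fun x => isEmptyElim x, fun x => isEmptyElim x⟩
  have hct : CTight X := ctight_of_small fun B hB => h B (hB.trans aleph_one_le_continuum)
  let K := X ⊕ C(X, ℝ)
  let d : K → X := Sum.elim id (fun _ => x0)
  let e : K → C(X, ℝ) := Sum.elim (fun _ => 0) id
  have hT1 : ∀ t : Finset K, ∃ C : Set K, C.Countable ∧ Dn Set.univ (d '' C) (e '' (↑t : Set K)) := by
    intro t
    obtain ⟨C, -, hC, hD⟩ := lemA (Set.univ : Set X) (e '' (↑t : Set K))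
    have hfin : #(e '' (↑t : Set K)) ≤ ℵ₀ :=
      Cardinal.le_aleph0_iff_set_countable.2 (t.finite_toSet.image e).countable
    have hCc : C.Countable := Cardinal.le_aleph0_iff_set_countable.1 (hC.trans (max_le hfin le_rfl))
    refine ⟨Sum.inl '' C, hCc.image _, ?_⟩
    have : d '' (Sum.inl '' C) = C := by
      rw [image_image]
      exact image_id C
    rw [this]
    rwa [closure_univ] at hD
  choose T1 hT1c hT1 using hT1
  let 𝓑 : Set (Set K) := {a | ¬ SepOn (closure (d '' a)) (e '' a)}
  have hB : ¬ StatIn 𝓑 Set.univ := by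
    intro hst
    have hF : ∀ C : Set K, ∃ F : Set C(X, ℝ), C.Countable →
        PCon (closure (d '' C)) F ∧ SepOn (closure (d '' C)) F := by
      intro C
      by_cases hC : C.Countable
      · obtain ⟨F, hF⟩ := h (d '' C) ((Cardinal.le_aleph0_iff_set_countable.2
          (hC.image d)).trans aleph0_le_continuum)
        exact ⟨F, fun _ => hF⟩
      · exact ⟨∅, fun h => absurd h hC⟩
    choose F hF using hF
    let Φ : Set K → Set K := fun C => Sum.inr '' {f | f ∈ F C ∧ ∃ b ∈ d '' C, f b ≠ 0}
    have hΦ : ∀ C, C.Countable → (Φ C).Countable := by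
      intro C hC
      refine Set.Countable.image ?_ _
      rw [← Cardinal.le_aleph0_iff_set_countable]
      refine (trim_card (B := d '' C) (F := F C) fun x hx => (hF C hC).1 x (subset_closure hx)).trans ?_
      exact max_le (Cardinal.le_aleph0_iff_set_countable.2 (hC.image d)) le_rfl
    obtain ⟨I, hI, hIΦ, hIst⟩ := hR K 𝓑 hst Φ hΦ
    have hsepI : SepOn (closure (d '' I)) (e '' I) := by
      intro x hx y hy hxy
      obtain ⟨C1, hC1, hC1c, hxC⟩ := ctight_index hct d I hx
      obtain ⟨C2, hC2, hC2c, hyC⟩ := ctight_index hct d I hy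
      have hCc : (C1 ∪ C2).Countable := hC1c.union hC2c
      have hx' : x ∈ closure (d '' (C1 ∪ C2)) := closure_mono (image_mono subset_union_left) hxC
      have hy' : y ∈ closure (d '' (C1 ∪ C2)) := closure_mono (image_mono subset_union_right) hyC
      refine (hF _ hCc).2 x hx' y hy' fun f hf => ?_
      by_contra hne
      have h1 := trim_sep hx' hy' hf hne
      refine hne (hxy f ⟨Sum.inr f, ?_, rfl⟩)
      exact hIΦ _ (union_subset hC1 hC2) hCc ⟨f, h1, rfl⟩
    obtain ⟨FI, hFI1, hFI2⟩ := h (d '' I) (Cardinal.mk_image_le.trans hI)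
    have hcomp : CompactSpace ↥(closure (d '' I)) :=
      isCompact_iff_compactSpace.1 isClosed_closure.isCompact
    have hcap : ∀ f : C(X, ℝ), ∃ N ⊆ I, N.Countable ∧
        ∀ x ∈ closure (d '' I), ∀ y ∈ closure (d '' I), (∀ k ∈ N, e k x = e k y) → f x = f y := by
      intro f
      obtain ⟨M, hM, hMc, hMf⟩ := capture_countable
        (E := (fun k => (e k).restrict (closure (d '' I))) '' I) (by
          intro x _ y _ hxy
          refine Subtype.ext (hsepI x x.2 y y.2 ?_)
          rintro _ ⟨k, hk, rfl⟩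
          exact hxy _ ⟨k, hk, rfl⟩) (f.restrict (closure (d '' I)))
      have hk : ∀ g : M, ∃ k ∈ I, (e k).restrict (closure (d '' I)) = g.1 := fun g => hM g.2
      choose k hkI hk using hk
      have : Countable M := hMc.to_subtype
      refine ⟨range k, ?_, countable_range k, ?_⟩
      · rintro _ ⟨g, rfl⟩
        exact hkI g
      · intro x hx y hy hxy
        refine hMf ⟨x, hx⟩ ⟨y, hy⟩ fun g hg => ?_
        have h3 : (e (k ⟨g, hg⟩)).restrict (closure (d '' I)) = g := hk ⟨g, hg⟩
        rw [← h3]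
        exact hxy _ ⟨⟨g, hg⟩, rfl⟩
    choose N hNI hNc hN using hcap
    let T : Finset K → Set K := fun t =>
      ⋃ s ∈ {s | s ∈ t ∧ s ∈ I}, ⋃ f ∈ {f | f ∈ FI ∧ f (d s) ≠ 0}, N f
    obtain ⟨a, haB, hac, haI, haT⟩ := hIst T
      (by
        intro t
        refine Countable.biUnion ((t.finite_toSet.subset fun s hs => hs.1).countable) ?_
        intro s hs
        exact Countable.biUnion (hFI1 (d s) (subset_closure ⟨s, hs.2, rfl⟩)) fun f _ => hNc f)
      (by
        intro t _
        exact iUnion₂_subset fun s _ => iUnion₂_subset fun f _ => hNI f)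
    apply haB
    intro x hx y hy hxy
    have hcl : closure (d '' a) ⊆ closure (d '' I) := closure_mono (image_mono haI)
    refine hFI2 x (hcl hx) y (hcl hy) fun f hf => ?_
    by_contra hne
    obtain ⟨-, _, ⟨s, hs, rfl⟩, hfs⟩ := trim_sep hx hy hf hne
    refine hne (hN f x (hcl hx) y (hcl hy) fun k hk => ?_)
    refine hxy _ ⟨k, ?_, rfl⟩
    refine haT {s} (by simpa using hs) ?_
    exact mem_iUnion₂.2 ⟨s, ⟨Finset.mem_singleton_self s, haI hs⟩, mem_iUnion₂.2 ⟨f, ⟨hf, hfs⟩, hk⟩⟩
  unfold StatIn at hB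
  push Not at hB
  obtain ⟨T0, hT0c, -, hT0⟩ := hB
  let T : Finset K → Set K := fun t => T0 t ∪ T1 t
  have hTc : ∀ t, (T t).Countable := fun t => (hT0c t).union (hT1c t)
  have hbd : BD d e T := by
    refine ⟨hTc, ?_, ?_, ?_⟩
    · have hs : Function.Surjective d := fun x => ⟨Sum.inl x, rfl⟩
      exact hs.denseRange
    · intro S hS x hx y hy hxy
      obtain ⟨C1, hC1, hC1c, hxC⟩ := ctight_index hct d S hx
      obtain ⟨C2, hC2, hC2c, hyC⟩ := ctight_index hct d S hy
      let J := cl T (C1 ∪ C2)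
      have hJc : J.Countable := cl_countable T hTc (hC1c.union hC2c)
      have hJS : J ⊆ S := cl_min T (union_subset hC1 hC2) hS
      have hJT : Cls T J := cls_cl T _
      have hsJ : SepOn (closure (d '' J)) (e '' J) := by
        by_contra hn
        obtain ⟨t, ht, ht'⟩ := hT0 J hn hJc (subset_univ _)
        exact ht' (subset_union_left.trans (hJT t ht))
      refine hsJ x (closure_mono (image_mono (subset_union_left.trans (subset_cl T _))) hxC)
        y (closure_mono (image_mono (subset_union_right.trans (subset_cl T _))) hyC) ?_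
      rintro _ ⟨k, hk, rfl⟩
      exact hxy _ ⟨k, hJS hk, rfl⟩
    · intro S hS hne
      let ι := {t : Finset K // (↑t : Set K) ⊆ S}
      have : Nonempty ι := ⟨⟨∅, by simp⟩⟩
      have hD : Dn Set.univ (⋃ _i : ι, d '' S) (⋃ i : ι, e '' (↑i.1 : Set K)) := by
        apply Dn_iUnion
        · intro i j
          refine ⟨⟨i.1 ∪ j.1, ?_⟩, Subset.rfl, Subset.rfl, ?_, ?_⟩
          · rw [Finset.coe_union]
            exact union_subset i.2 j.2
          · exact image_mono (by simp)
          · exact image_mono (by simp)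
        · intro i x hx
          obtain ⟨x', hx', hf⟩ := hT1 i.1 x hx
          exact ⟨x', closure_mono (image_mono (subset_union_right.trans (hS i.1 i.2))) hx', hf⟩
      intro x hx
      obtain ⟨x', hx', hf⟩ := hD x hx
      refine ⟨x', by rwa [iUnion_const] at hx', ?_⟩
      rintro _ ⟨k, hk, rfl⟩
      exact hf _ (mem_iUnion.2 ⟨⟨{k}, by simpa using hk⟩, k, by simp, rfl⟩)
  exact bd_corson _ X K d e T hct hbd rfl

end Pool.Agent.Helper79L.BD
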